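import Pool.Agent.N463.MI.Stm

/-!
Project MI, part C02: arc near `π`.
-/

set_option autoImplicit false

open Finset

namespace Pool.Agent.N316.MI

open Pool.Agent.N463.MI

theorem c02_fin (t X c : ℝ) (ht : 0 < t)
    (hX : X + 3 + 3 / 2 * (9 * Real.log 2 - 1 + t⁻¹ / 512) ≤ c / t) :
    Real.exp X ≤ t * √t * Real.exp (c / t - 3) := by
  have h1 : -Real.log t ≤ 9 * Real.log 2 - 1 + t⁻¹ / 512 := by
    have h2 := Real.log_le_sub_one_of_pos (x := t⁻¹ / 512) (by positivity)
    rw [Real.log_div (by positivity) (by norm_num), Real.log_inv] at h2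
    have h3 : Real.log 512 = 9 * Real.log 2 := by
      rw [show (512 : ℝ) = 2 ^ 9 by norm_num, Real.log_pow]
      norm_num
    rw [h3] at h2
    linarith
  have h4 : t * √t = Real.exp (3 / 2 * Real.log t) := by
    have h5 : √t = Real.exp (Real.log t / 2) := by
      rw [Real.sqrt_eq_iff_mul_self_eq ht.le (Real.exp_pos _).le, ← Real.exp_add]
      rw [show Real.log t / 2 + Real.log t / 2 = Real.log t by ring, Real.exp_log ht]
    rw [h5]
    nth_rewrite 1 [← Real.exp_log ht]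
    rw [← Real.exp_add]
    congr 1
    ring
  rw [h4, ← Real.exp_add]
  apply Real.exp_le_exp.2
  linarith

theorem sum_even_odd (f : ℕ → ℝ) (n : ℕ) : ∑ j ∈ range (2 * n), f j =
    ∑ l ∈ range n, f (2 * l) + ∑ l ∈ range n, f (2 * l + 1) := by
  induction n with
  | zero => simp
  | succ n ih =>
    rw [show 2 * (n + 1) = 2 * n + 1 + 1 by ring, sum_range_succ, sum_range_succ, ih,
      sum_range_succ, sum_range_succ]
    ring

theorem t_C02 (h5 : A05) (h4 : B04) (hm : C02m) (hr : C02r) : C02 := by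
  intro a K θ hA h1 h2
  have ha : 1 < a := by
    rcases hA with ⟨rfl, -⟩ | ⟨rfl, -⟩ <;> norm_num
  have hK : 1 ≤ K := by
    rcases hA with ⟨-, h⟩ | ⟨-, h⟩ <;> omega
  obtain ⟨hs, hb⟩ := h5 a K θ ha hK (Real.log a / K) rfl
  have hL : 0 < Real.log a := Real.log_pos ha
  have hK' : (0 : ℝ) < K := by exact_mod_cast hK
  have em := hm a K θ (Real.log a / K) hA rfl h1 h2
  have er := hr a K θ (Real.log a / K) hA rfl h1 h2
  unfold Pool.Agent.N463.MI.Small
  set t : ℝ := Real.log a / K with ht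
  have ht0 : 0 < t := by positivity
  set f : ℕ → ℝ := fun j : ℕ => cf a (K * θ) j / (j + 1) *
    ((kr ((j + 1 : ℕ) * t) ((j + 1 : ℕ) * θ) - 1) / 2) with hf
  have hsplit : ∑' j, f j = (∑ l ∈ range 39, f (2 * l) + ∑ l ∈ range 39, f (2 * l + 1)) +
      ∑' j, f (j + 78) := by
    rw [← hs.sum_add_tsum_nat_add 78, ← sum_even_odd f 39]
  have em' : ∑ l ∈ range 39, f (2 * l + 1) ≤ (if a = 2 then 0.27 else 0.395) / t + 1.4 := em
  have er' : ∑ l ∈ range 39, f (2 * l) + ∑' j, f (j + 78) ≤ 0.0572 / t + 4.1 := er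
  have hS : ∑' j, f j ≤ (if a = 2 then 0.27 else 0.395) / t + 1.4 + (0.0572 / t + 4.1) := by
    rw [hsplit]; linarith
  refine hb.trans ?_
  have l2 := Real.log_two_gt_d9
  have l2' := Real.log_two_lt_d9
  obtain ⟨b1, -, b2, -⟩ := h4
  have key : 2 / (1 + a⁻¹) ≤ Real.exp (Real.log a / 2) := by
    rw [Real.exp_half, Real.exp_log (by linarith)]
    apply Real.le_sqrt_of_sq_le
    rcases hA with ⟨rfl, -⟩ | ⟨rfl, -⟩ <;> norm_num
  have hexp : 2 / (1 + a⁻¹) * Real.exp ((Real.log a) ^ 2 / (2 * t) - Real.log a / 2 +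
      ∑' j, f j) ≤ Real.exp ((Real.log a) ^ 2 / (2 * t) + ∑' j, f j) := by
    refine (mul_le_mul_of_nonneg_right key (Real.exp_pos _).le).trans (le_of_eq ?_)
    rw [← Real.exp_add]
    congr 1
    ring
  refine hexp.trans (c02_fin t _ _ ht0 ?_)
  have hy : t⁻¹ = K / Real.log a := by rw [ht, inv_div]
  have hy0 : 0 < t⁻¹ := by positivity
  have e1 : (Real.log a) ^ 2 / (2 * t) = (Real.log a) ^ 2 / 2 * t⁻¹ := by
    field_simp
  rw [e1]
  simp only [div_eq_mul_inv _ t] at hS ⊢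
  rcases hA with ⟨rfl, h⟩ | ⟨rfl, h⟩
  · rw [if_pos rfl] at hS
    have hc := mul_le_mul_of_nonneg_right b1 hy0.le
    have hyl : 490 ≤ t⁻¹ := by
      rw [hy, le_div_iff₀ hL]
      have : (340 : ℝ) ≤ K := by exact_mod_cast h
      nlinarith
    nlinarith
  · rw [if_neg (by norm_num)] at hS
    have hc := mul_le_mul_of_nonneg_right b2 hy0.le
    have l3 : Real.log 3 ≤ 8 / 5 * Real.log 2 := by
      have h6 : Real.log (3 ^ 5) ≤ Real.log (2 ^ 8) :=
        Real.log_le_log (by norm_num) (by norm_num)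
      rw [Real.log_pow, Real.log_pow] at h6
      push_cast at h6
      linarith
    have hyl : 360 ≤ t⁻¹ := by
      rw [hy, le_div_iff₀ hL]
      have : (400 : ℝ) ≤ K := by exact_mod_cast h
      nlinarith
    nlinarith

end Pool.Agent.N316.MI
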